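import Pool.Agent.W128.VA.Stm

/-!
# Project VA: the modes of `e^σ` commute
-/

set_option autoImplicit false

namespace Pool.Agent.W962.VA.EE

open Finset
open Pool.Agent.W128.VA

theorem base (hP : S_EOPP) (hC : S_EOPC) (σ : ℤ) (hσ : σ = 1 ∨ σ = -1) (m n k : ℤ) :
    eV σ m (eV σ n (Finsupp.single k 1)) = eV σ n (eV σ m (Finsupp.single k 1)) := by
  rw [eV_single, eV_single, eV_single, eV_single, (hC σ _).2.2, (hC σ _).2.2,
    (hP σ hσ _).1, (hP σ hσ _).1]
  have hs : σ * σ = 1 := by rcases hσ with h | h <;> rw [h] <;> norm_num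
  have hs2 : 2 * σ * (k + σ) = 2 * σ * k + 2 := by linear_combination 2 * hs
  rw [hs2]
  have e1 : -m - 1 - (2 * σ * k + 2) + 1 = -m - 1 - 2 * σ * k - 1 := by ring
  have e2 : -m - 1 - (2 * σ * k + 2) + 2 = -m - 1 - 2 * σ * k := by ring
  have e3 : -n - 1 - (2 * σ * k + 2) + 1 = -n - 1 - 2 * σ * k - 1 := by ring
  have e4 : -n - 1 - (2 * σ * k + 2) + 2 = -n - 1 - 2 * σ * k := by ring
  have e5 : -m - 1 - (2 * σ * k + 2) = -m - 1 - 2 * σ * k - 2 := by ring
  have e6 : -n - 1 - (2 * σ * k + 2) = -n - 1 - 2 * σ * k - 2 := by ring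
  rw [e1, e2, e3, e4, e5, e6]
  congr 1
  ring

theorem hop_X (i : ℕ) (k : ℤ) (p : R0) :
    (Finsupp.single k (p * MvPolynomial.X i) : V0) = hop (-((i : ℤ) + 1)) (Finsupp.single k p) := by
  rw [hop_single]
  unfold hR
  have h1 : -((i : ℤ) + 1) < 0 := by omega
  have h2 : (-(-((i : ℤ) + 1)) - 1).toNat = i := by omega
  rw [if_pos h1, h2, LinearMap.mulLeft_apply, mul_comm]

theorem main : S_EOPP → S_EOPC → S_HE → S_EE := by
  intro hP hC hHE σ hσ m n v
  have key : ∀ (p : R0) (k m n : ℤ),
      eV σ m (eV σ n (Finsupp.single k p)) = eV σ n (eV σ m (Finsupp.single k p)) := by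
    intro p
    induction p using MvPolynomial.induction_on with
    | C a =>
      intro k m n
      have h1 : (Finsupp.single k (MvPolynomial.C a) : V0) = a • Finsupp.single k (1 : R0) := by
        rw [Finsupp.smul_single, MvPolynomial.smul_eq_C_mul, mul_one]
      rw [h1, map_smul, map_smul, map_smul, map_smul, base hP hC σ hσ]
    | add p q hp hq =>
      intro k m n
      rw [Finsupp.single_add, map_add, map_add, map_add, map_add, hp, hq]
    | mul_X p i hp =>
      intro k m n
      rw [hop_X]
      set a : ℤ := -((i : ℤ) + 1) with ha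
      set w : V0 := Finsupp.single k p with hw
      have e1 : ∀ (n : ℤ) (v : V0),
          eV σ n (hop a v) = hop a (eV σ n v) - (2 * (σ : ℂ)) • eV σ (a + n) v := by
        intro n v
        rw [← hHE σ a n v]
        abel
      rw [e1, e1, map_sub, map_sub, map_smul, map_smul, e1, e1, hw, hp k m n, hp k m (a + n),
        hp k (a + m) n]
      abel
  induction v using Finsupp.induction_linear with
  | zero => simp only [map_zero]
  | add f g hf hg => rw [map_add, map_add, map_add, map_add, hf, hg]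
  | single k p => exact key p k m n

end Pool.Agent.W962.VA.EE
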